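import Mathlib
import Pool.Agent.H759R2.Kad.Props3
import Pool.Agent.H539R2.Kad.Chars

/-! Parseval for vector valued trigonometric polynomials on `(ZMod R)^ι`. -/

open scoped ComplexOrder InnerProductSpace ComplexConjugate
open Finset

noncomputable section

namespace H759R2.Kad

universe u v

namespace A08

lemma expand_inner {ι : Type} [Fintype ι] [DecidableEq ι] {R : ℕ} [NeZero R]
    {W : Type v} [NormedAddCommGroup W] [InnerProductSpace ℂ W] (Y : (ι → ZMod R) → W) :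
    ∑ ω : ι → ZMod R, ⟪∑ f, Chi f ω • Y f, ∑ f, Chi f ω • Y f⟫_ℂ
      = ((Fintype.card (ι → ZMod R) : ℕ) : ℂ) * ∑ f, ⟪Y f, Y f⟫_ℂ := by
  have e : ∀ ω : ι → ZMod R, ⟪∑ f, Chi f ω • Y f, ∑ f, Chi f ω • Y f⟫_ℂ
      = ∑ f, ∑ g, (conj (Chi f ω) * Chi g ω) * ⟪Y f, Y g⟫_ℂ := by
    intro ω
    rw [sum_inner]
    refine Finset.sum_congr rfl fun f _ => ?_
    rw [inner_sum]
    refine Finset.sum_congr rfl fun g _ => ?_
    rw [inner_smul_left, inner_smul_right]
    ring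
  rw [Finset.sum_congr rfl (fun ω _ => e ω), Finset.sum_comm, Finset.mul_sum]
  refine Finset.sum_congr rfl fun f _ => ?_
  rw [Finset.sum_comm]
  have e2 : ∀ g : ι → ZMod R, ∑ ω : ι → ZMod R, (conj (Chi f ω) * Chi g ω) * ⟪Y f, Y g⟫_ℂ
      = (if f = g then ((Fintype.card (ι → ZMod R) : ℕ) : ℂ) else 0) * ⟪Y f, Y g⟫_ℂ := by
    intro g
    rw [← Finset.sum_mul, prove_orth ι R f g]
  rw [Finset.sum_congr rfl (fun g _ => e2 g)]
  rw [Finset.sum_eq_single f]
  · rw [if_pos rfl]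
  · intro g _ hg
    rw [if_neg (Ne.symm hg), zero_mul]
  · intro h
    exact absurd (mem_univ f) h

end A08

theorem prove3_pars : K_pars.{v} := by
  intro ι _ _ R _ W _ _ Y
  have e3 := A08.expand_inner Y
  have e4 : ((∑ ω : ι → ZMod R, ‖∑ f, Chi f ω • Y f‖ ^ 2 : ℝ) : ℂ)
      = ((((Fintype.card (ι → ZMod R) : ℕ) : ℝ) * ∑ f, ‖Y f‖ ^ 2 : ℝ) : ℂ) := by
    push_cast
    calc (∑ ω : ι → ZMod R, (‖∑ f, Chi f ω • Y f‖ : ℂ) ^ 2)
        = ∑ ω : ι → ZMod R, ⟪∑ f, Chi f ω • Y f, ∑ f, Chi f ω • Y f⟫_ℂ := by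
          refine Finset.sum_congr rfl fun ω _ => ?_
          rw [inner_self_eq_norm_sq_to_K]
          rfl
      _ = _ := e3
      _ = _ := by
          congr 1
          refine Finset.sum_congr rfl fun f _ => ?_
          rw [inner_self_eq_norm_sq_to_K]
          rfl
  exact_mod_cast e4

end H759R2.Kad
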